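import Pool.Agent.Helper49.PD.Special
import Pool.Agent.Helper41.PD.Lab

/-!
# EV3, block (5d): regular bigons in the form of `Helper41.PD`
-/

set_option autoImplicit false

namespace Pool.Agent.Helper49.PD

open Pool.Agent.Helper41.PD (sc)

/-- `RegW` in terms of the edges after the steps: the left strand makes `m` crossings on its other side, the right strand
`m'`, then they cross each other. -/
theorem RegW.sc_form {P : Type} {nxt : Equiv.Perm P} {op : P → P} {lf : P → Bool} (op_op : ∀ p, op (op p) = p)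
    (lf_op : ∀ p, lf (op p) = !lf p) {C : P → Prop} {p : P} (h : RegW nxt op lf C p) :
    ∃ m m' : ℕ, (∀ k ≤ m, ¬ C ((sc nxt op)^[k] p)) ∧ (∀ k ≤ m', ¬ C ((sc nxt op)^[k] (op p))) ∧
      (∀ k < m, lf ((sc nxt op)^[k + 1] p) = false) ∧ lf ((sc nxt op)^[m + 1] p) = true ∧
      (∀ k < m', lf ((sc nxt op)^[k + 1] (op p)) = true) ∧ lf ((sc nxt op)^[m' + 1] (op p)) = false ∧
      (sc nxt op)^[m' + 1] (op p) = op ((sc nxt op)^[m + 1] p) := by
  have h' := h
  unfold RegW at h'
  rw [show sf nxt op = sc nxt op from rfl] at h'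
  obtain ⟨a, b, h1, h2, h3, h4, h5, h6, h7⟩ := h'
  have hlf : ∀ (k : ℕ) (q : P), lf ((sc nxt op)^[k + 1] q) = !lf (nxt ((sc nxt op)^[k] q)) := by
    intro k q
    rw [Function.iterate_succ_apply']
    exact lf_op _
  refine ⟨a, b, h5, h6, fun k hk => ?_, ?_, fun k hk => ?_, ?_, ?_⟩
  · rw [hlf, h1 k hk]
    rfl
  · rw [hlf, h2]
    rfl
  · rw [hlf, h3 k hk]
    rfl
  · rw [hlf, h4]
    rfl
  · rw [Function.iterate_succ_apply', Function.iterate_succ_apply']
    show op (nxt ((sc nxt op)^[b] (op p))) = op (op (nxt ((sc nxt op)^[a] p)))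
    rw [op_op, h7]

end Pool.Agent.Helper49.PD
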