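import Pool.Agent.Helper2.PD.Faces

/-!
# EV3, block (5d): a face with one sink corner and without cut edges is a regular bigon

`nxt`, `op`, `lf` as in a shadow without fixed points of `op`; `L e`, `R e` are the faces to the left and to the right of the edge
from `e` to `nxt e`. The Seifert step of an edge `e` is `op (nxt e)`. At a crossing `{p, op p}` with `lf p = true` the edge `p`
leaves on the left, the edge `op p` leaves on the right, the face in front of the crossing is `R p = L (op p)`.
-/

set_option autoImplicit false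

namespace Pool.Agent.Helper49.PD

section Abstract

variable {P F : Type*} (nxt : Equiv.Perm P) (op : P → P) (lf : P → Bool)

/-- The Seifert step of an edge. -/
def sf (e : P) : P := op (nxt e)

/-- The crossing `{p, op p}` (`lf p = true`) is regular: the two boundary walks of the face in front of it, along the left strand
and along the right strand, avoid `C` and end at the same crossing. -/
def RegW (C : P → Prop) (p : P) : Prop :=
  ∃ a b : ℕ, (∀ i < a, lf (nxt ((sf nxt op)^[i] p)) = true) ∧ lf (nxt ((sf nxt op)^[a] p)) = false ∧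
    (∀ i < b, lf (nxt ((sf nxt op)^[i] (op p))) = false) ∧ lf (nxt ((sf nxt op)^[b] (op p))) = true ∧
    (∀ i ≤ a, ¬ C ((sf nxt op)^[i] p)) ∧ (∀ i ≤ b, ¬ C ((sf nxt op)^[i] (op p))) ∧
    nxt ((sf nxt op)^[a] p) = op (nxt ((sf nxt op)^[b] (op p)))

variable {nxt op lf}

theorem sf_inj (op_op : ∀ p, op (op p) = p) : Function.Injective (sf nxt op) := by
  intro a b h
  apply nxt.injective
  rw [← op_op (nxt a), ← op_op (nxt b)]
  exact congrArg op h

/-- Every Seifert walk comes back. -/
theorem exists_back [Finite P] (op_op : ∀ p, op (op p) = p) (p : P) : ∃ n : ℕ, sf nxt op ((sf nxt op)^[n] p) = p := by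
  have h := (sf_inj (nxt := nxt) op_op).mem_periodicPts p
  obtain ⟨n, hn, h1⟩ := h
  obtain ⟨m, rfl⟩ := Nat.exists_eq_succ_of_ne_zero hn.ne'
  refine ⟨m, ?_⟩
  have h2 : (sf nxt op)^[m + 1] p = p := h1
  rwa [Function.iterate_succ_apply'] at h2

theorem exists_end_left [Finite P] (op_op : ∀ p, op (op p) = p) (lf_op : ∀ p, lf (op p) = !lf p) {p : P} (hp : lf p = true) :
    ∃ a : ℕ, (∀ i < a, lf (nxt ((sf nxt op)^[i] p)) = true) ∧ lf (nxt ((sf nxt op)^[a] p)) = false := by
  classical
  obtain ⟨n, hn⟩ := exists_back (nxt := nxt) op_op p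
  have h0 : lf (nxt ((sf nxt op)^[n] p)) = false := by
    have h1 : nxt ((sf nxt op)^[n] p) = op p := by
      rw [← op_op (nxt ((sf nxt op)^[n] p))]
      exact congrArg op hn
    rw [h1, lf_op, hp]
    rfl
  have hex : ∃ a, lf (nxt ((sf nxt op)^[a] p)) = false := ⟨n, h0⟩
  refine ⟨Nat.find hex, fun i hi => ?_, Nat.find_spec hex⟩
  have := Nat.find_min hex hi
  simpa using this

theorem exists_end_right [Finite P] (op_op : ∀ p, op (op p) = p) (lf_op : ∀ p, lf (op p) = !lf p) {q : P} (hq : lf q = false) :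
    ∃ a : ℕ, (∀ i < a, lf (nxt ((sf nxt op)^[i] q)) = false) ∧ lf (nxt ((sf nxt op)^[a] q)) = true := by
  classical
  obtain ⟨n, hn⟩ := exists_back (nxt := nxt) op_op q
  have h0 : lf (nxt ((sf nxt op)^[n] q)) = true := by
    have h1 : nxt ((sf nxt op)^[n] q) = op q := by
      rw [← op_op (nxt ((sf nxt op)^[n] q))]
      exact congrArg op hn
    rw [h1, lf_op, hq]
    rfl
  have hex : ∃ a, lf (nxt ((sf nxt op)^[a] q)) = true := ⟨n, h0⟩
  refine ⟨Nat.find hex, fun i hi => ?_, Nat.find_spec hex⟩
  have := Nat.find_min hex hi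
  simpa using this

variable {L R : P → F}

/-- The walk along the left strand stays on the boundary of the face. -/
theorem left_face (hE : ∀ x, lf x = true → R (nxt.symm x) = R (op x)) {p : P} {a : ℕ}
    (ha : ∀ i < a, lf (nxt ((sf nxt op)^[i] p)) = true) : ∀ i ≤ a, R ((sf nxt op)^[i] p) = R p := by
  intro i
  induction i with
  | zero => intro _; rfl
  | succ i ih =>
    intro hi
    rw [Function.iterate_succ_apply', sf, ← hE _ (ha i (by omega)), Equiv.symm_apply_apply]
    exact ih (by omega)

/-- The walk along the right strand stays on the boundary of the face. -/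
theorem right_face (op_op : ∀ p, op (op p) = p) (lf_op : ∀ p, lf (op p) = !lf p)
    (hW : ∀ x, lf x = true → L x = L (nxt.symm (op x))) {q : P} {b : ℕ}
    (hb : ∀ i < b, lf (nxt ((sf nxt op)^[i] q)) = false) : ∀ i ≤ b, L ((sf nxt op)^[i] q) = L q := by
  intro i
  induction i with
  | zero => intro _; rfl
  | succ i ih =>
    intro hi
    have h1 : lf (op (nxt ((sf nxt op)^[i] q))) = true := by
      rw [lf_op, hb i (by omega)]
      rfl
    rw [Function.iterate_succ_apply', sf, hW _ h1, op_op, Equiv.symm_apply_apply]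
    exact ih (by omega)

/-- **A face with at most one sink corner and without edges of `C` on its boundary is a regular bigon.** -/
theorem regW [Finite P] (op_op : ∀ p, op (op p) = p) (lf_op : ∀ p, lf (op p) = !lf p)
    (hN : ∀ x, lf x = true → R x = L (op x)) (hS : ∀ x, lf x = true → L (nxt.symm x) = R (nxt.symm (op x)))
    (hW : ∀ x, lf x = true → L x = L (nxt.symm (op x))) (hE : ∀ x, lf x = true → R (nxt.symm x) = R (op x))
    {C : P → Prop} {p : P} (hp : lf p = true) (hCL : ∀ e, L e = R p → ¬ C e) (hCR : ∀ e, R e = R p → ¬ C e)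
    (hsink : ∀ x y, lf x = true → lf y = true → L (nxt.symm x) = R p → L (nxt.symm y) = R p → x = y) :
    RegW nxt op lf C p := by
  have hq : lf (op p) = false := by rw [lf_op, hp]; rfl
  obtain ⟨a, ha1, ha2⟩ := exists_end_left (nxt := nxt) op_op lf_op hp
  obtain ⟨b, hb1, hb2⟩ := exists_end_right (nxt := nxt) op_op lf_op hq
  have hl := left_face hE ha1
  have hr := right_face op_op lf_op hW hb1
  refine ⟨a, b, ha1, ha2, hb1, hb2, fun i hi => hCR _ (hl i hi), fun i hi => hCL _ (by rw [hr i hi, hN p hp]), ?_⟩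
  have h1 : lf (op (nxt ((sf nxt op)^[a] p))) = true := by
    rw [lf_op, ha2]
    rfl
  have h2 : L (nxt.symm (op (nxt ((sf nxt op)^[a] p)))) = R p := by
    rw [hS _ h1, op_op, Equiv.symm_apply_apply]
    exact hl a le_rfl
  have h3 : L (nxt.symm (nxt ((sf nxt op)^[b] (op p)))) = R p := by
    rw [Equiv.symm_apply_apply, hr b le_rfl, hN p hp]
  have h4 := hsink _ _ h1 hb2 h2 h3
  rw [← h4, op_op]

end Abstract

section Faces

open Pool.Agent.Helper85.Exp Pool.Agent.Helper2.PD

variable {P : Type} [Finite P] {G : Sh P}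

/-- The same for the faces of a shadow. -/
theorem regW_of (ho : ∀ i, G.op i ≠ i) {C : P → Prop} {p : P} (hp : G.lf p = true)
    (hC : ∀ e, (Lf G e = Rf G p ∨ Rf G e = Rf G p) → ¬ C e)
    (hsink : ∀ x y, G.lf x = true → G.lf y = true → Lf G (G.nxt.symm x) = Rf G p → Lf G (G.nxt.symm y) = Rf G p → x = y) :
    RegW G.nxt G.op G.lf C p :=
  regW (L := Lf G) (R := Rf G) G.op_op (fun p => G.lf_op p (ho p)) (fun _ hx => corner_N hx) (fun _ hx => corner_S hx)
    (fun x hx => corner_W hx (ho x)) (fun x hx => corner_E hx (ho x)) hp (fun e he => hC e (Or.inl he))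
    (fun e he => hC e (Or.inr he)) hsink

/-- The same with the number of sink corners. -/
theorem regW_of_card [Fintype P] [DecidableEq (Face G)] (ho : ∀ i, G.op i ≠ i) {C : P → Prop} {p : P} (hp : G.lf p = true)
    (hC : ∀ e, (Lf G e = Rf G p ∨ Rf G e = Rf G p) → ¬ C e)
    (hsink : (Finset.univ.filter fun x : P => G.lf x = true ∧ Lf G (G.nxt.symm x) = Rf G p).card ≤ 1) :
    RegW G.nxt G.op G.lf C p := by
  refine regW_of ho hp hC fun x y hx hy hx' hy' => ?_
  exact Finset.card_le_one.1 hsink x (by simp [hx, hx']) y (by simp [hy, hy'])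

end Faces

end Pool.Agent.Helper49.PD
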